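import Pool.Agent.helper31.RLS.Spec

/-! # Row rls:FIN -/

set_option autoImplicit false

namespace Pool.Agent.RLS

open Finset

theorem FIN_PP (w z : ℝ) (hz : 0 ≤ z) (p : ℕ) (hp : p ∈ PP w z) : p.Prime ∧ (p : ℝ) ≤ z := by
  unfold PP at hp
  rw [mem_filter, mem_range] at hp
  refine ⟨hp.2.1, ?_⟩
  have h1 : p ≤ ⌊z⌋₊ := by omega
  exact le_trans (by exact_mod_cast h1) (Nat.floor_le hz)

theorem FIN_exp (K : Finset ℕ) (hK : ∀ p ∈ K, 0 < p) (R : ℝ) (hR : 1 ≤ R)
    (h : ∑ p ∈ K, Real.log p ≤ Real.log R) : ∏ p ∈ K, (p : ℝ) ≤ R := by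
  have h1 : Real.log (∏ p ∈ K, (p : ℝ)) = ∑ p ∈ K, Real.log p := by
    rw [Real.log_prod]
    intro p hp
    have := hK p hp
    positivity
  have h2 : 0 < ∏ p ∈ K, (p : ℝ) := Finset.prod_pos fun p hp => by
    have := hK p hp
    positivity
  rw [← h1] at h
  exact (Real.log_le_log_iff h2 (by linarith)).1 h

theorem FIN_w (h3 : LA_stmt) (h5 : CT_stmt) (b : Bool) (w z D : ℝ) (hz : 0 ≤ z)
    (hb : b = false → ∀ p ∈ PP w z, 2 * Real.log p ≤ Real.log D) : ∃ l : Finset ℕ → ℝ,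
    (∀ K, |l K| ≤ 1) ∧ l ∅ = 1 ∧ (∀ K, l K ≠ 0 → K ⊆ PP w z ∧ Cut D K) ∧
    (∀ T ⊆ PP w z, ∑ K ∈ T.powerset, l K = ∑ K ∈ T.powerset, lam b (Real.log D) K) ∧
    ∑ K ∈ (PP w z).powerset, l K / ∏ p ∈ K, (p : ℝ) =
      SS b (fun p : ℕ => 1 / (p : ℝ)) (Real.log D) (PP w z) := by
  obtain ⟨a1, -, -, a4⟩ := h3
  refine ⟨fun K => if K ⊆ PP w z then lam b (Real.log D) K else 0, ?_, ?_, ?_, ?_, ?_⟩
  · intro K
    show |if K ⊆ PP w z then lam b (Real.log D) K else 0| ≤ 1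
    split_ifs
    · exact a4 b _ K
    · simp
  · show (if (∅ : Finset ℕ) ⊆ PP w z then lam b (Real.log D) ∅ else 0) = 1
    rw [if_pos (Finset.empty_subset _), a1]
  · intro K hK
    have hsub : K ⊆ PP w z := by
      by_contra h
      exact hK (if_neg h)
    have hlam : lam b (Real.log D) K ≠ 0 := by
      intro h
      apply hK
      show (if K ⊆ PP w z then lam b (Real.log D) K else 0) = 0
      rw [if_pos hsub, h]
    have hpos : ∀ p ∈ K, 0 < p := fun p hp => (FIN_PP w z hz p (hsub hp)).1.pos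
    refine ⟨hsub, ?_⟩
    intro R S hR hS hRS
    obtain ⟨K₁, hK₁, b1, b2⟩ := h5 b (Real.log D) (Real.log R) (Real.log S) K
      (fun p hp => hpos p hp) hlam (fun hbf p hp => hb hbf p (hsub hp)) (Real.log_nonneg hR)
      (Real.log_nonneg hS) (by rw [← Real.log_mul (by linarith) (by linarith), hRS])
    exact ⟨K₁, hK₁, FIN_exp K₁ (fun p hp => hpos p (hK₁ hp)) R hR b1,
      FIN_exp _ (fun p hp => hpos p (Finset.mem_sdiff.1 hp).1) S hS b2⟩
  · intro T hT
    refine Finset.sum_congr rfl fun K hK => ?_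
    rw [mem_powerset] at hK
    exact if_pos (hK.trans hT)
  · unfold SS
    refine Finset.sum_congr rfl fun K hK => ?_
    rw [mem_powerset] at hK
    show (if K ⊆ PP w z then lam b (Real.log D) K else 0) / ∏ p ∈ K, (p : ℝ) = _
    rw [if_pos hK, Finset.prod_div_distrib, Finset.prod_const_one, mul_one_div]

theorem FIN (h1 : DP_stmt) (h2 : GEN_stmt) (h3 : LA_stmt) (h4 : SI_stmt) (h5 : CT_stmt) :
    FIN_stmt := by
  intro u hu
  obtain ⟨A, F, f, hD⟩ := h1 u hu
  refine ⟨A, hD.A3, hD.A4, ?_⟩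
  intro eps heps
  obtain ⟨w₀, hw₀, hw⟩ := h2 u A F f hu hD (3 / 4 * eps) (by positivity)
  refine ⟨w₀, hw₀, ?_⟩
  intro w D hw1 hw4 hDu
  have h2w : 2 ≤ w := le_trans hw₀ hw1
  have h1w : 1 ≤ w := by linarith
  have hw0 : 0 < w := by linarith
  have hwD : w ≤ D := by
    refine le_trans ?_ hw4
    have := Real.rpow_le_rpow_of_exponent_le h1w (show (1 : ℝ) ≤ 4 by norm_num)
    rwa [Real.rpow_one] at this
  have hD1 : 1 ≤ D := by linarith
  have hD0 : 0 < D := by linarith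
  have hlw : 0 < Real.log w := Real.log_pos (by linarith)
  have hlD : 0 < Real.log D := Real.log_pos (by linarith)
  have hA3 := hD.A3
  have hroot : w ≤ D ^ (1 / 4 : ℝ) := by
    have h6 := Real.rpow_le_rpow (by positivity) hw4 (show (0 : ℝ) ≤ 1 / 4 by norm_num)
    rw [← Real.rpow_mul hw0.le] at h6
    norm_num at h6
    exact h6
  have h34 : D ^ (1 / 4 : ℝ) ≤ D ^ (1 / 3 : ℝ) :=
    Real.rpow_le_rpow_of_exponent_le hD1 (by norm_num)
  have h3D : D ^ (1 / 3 : ℝ) ≤ D := by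
    have := Real.rpow_le_rpow_of_exponent_le hD1 (show (1 / 3 : ℝ) ≤ 1 by norm_num)
    rwa [Real.rpow_one] at this
  have h4D : (D ^ (1 / 4 : ℝ)) ^ 2 ≤ D := by
    have h6 : (D ^ (1 / 4 : ℝ)) ^ 2 = D ^ (1 / 2 : ℝ) := by
      rw [← Real.rpow_natCast, ← Real.rpow_mul hD0.le]
      norm_num
    rw [h6]
    have := Real.rpow_le_rpow_of_exponent_le hD1 (show (1 / 2 : ℝ) ≤ 1 by norm_num)
    rwa [Real.rpow_one] at this
  have l3 : Real.log (D ^ (1 / 3 : ℝ)) = 1 / 3 * Real.log D := Real.log_rpow hD0 _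
  have l4 : Real.log (D ^ (1 / 4 : ℝ)) = 1 / 4 * Real.log D := Real.log_rpow hD0 _
  have hq : 0 < Real.log w / Real.log D := by positivity
  constructor
  · obtain ⟨l, c1, c2, c3, c4, c5⟩ := FIN_w h3 h5 true w (D ^ (1 / 3 : ℝ)) D (by positivity)
      (fun h => by simp at h)
    refine ⟨l, c1, c2, c3, ?_, ?_⟩
    · intro T hT
      rw [c4 T hT]
      obtain ⟨s1, s2, -⟩ := h4 (Real.log D) T
      exact ⟨s1, s2⟩
    · rw [c5]
      have h7 := (hw w (D ^ (1 / 3 : ℝ)) D hw1 (le_trans hroot h34) hDu).1 h3D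
      refine le_trans h7 ?_
      have e1 : Real.log D / Real.log (D ^ (1 / 3 : ℝ)) = 3 := by
        rw [l3]
        field_simp
      have e2 : Real.log w / Real.log (D ^ (1 / 3 : ℝ)) = 3 * (Real.log w / Real.log D) := by
        rw [l3]
        field_simp
      rw [e1, e2, hD.Fs 3 (by norm_num) (by norm_num)]
      nlinarith [mul_nonneg (mul_pos hq heps).le (show 0 ≤ A - 9 / 4 by linarith)]
  · obtain ⟨l, c1, c2, c3, c4, c5⟩ := FIN_w h3 h5 false w (D ^ (1 / 4 : ℝ)) D (by positivity)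
      (fun _ p hp => by
        obtain ⟨hp1, hp2⟩ := FIN_PP w _ (by positivity) p hp
        have hp0 : (0 : ℝ) < p := by exact_mod_cast hp1.pos
        have := Real.log_le_log hp0 hp2
        rw [l4] at this
        linarith)
    refine ⟨l, c1, c2, c3, ?_, ?_⟩
    · intro T hT
      rw [c4 T hT]
      exact (h4 (Real.log D) T).2.2
    · rw [c5]
      have h7 := (hw w (D ^ (1 / 4 : ℝ)) D hw1 hroot hDu).2 h4D
      refine le_trans ?_ h7
      have e1 : Real.log D / Real.log (D ^ (1 / 4 : ℝ)) = 4 := by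
        rw [l4]
        field_simp
      have e2 : Real.log w / Real.log (D ^ (1 / 4 : ℝ)) = 4 * (Real.log w / Real.log D) := by
        rw [l4]
        field_simp
      rw [e1, e2, hD.fs 4 (by norm_num) (by norm_num)]
      have e3 : (4 : ℝ) - 1 = 3 := by norm_num
      rw [e3]
      nlinarith [mul_nonneg (mul_pos hq heps).le (show 0 ≤ A - 3 by linarith)]

end Pool.Agent.RLS
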